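import Pool.Agent.H.MP_9afe8f_co.Geo

set_option autoImplicit false

namespace Pool.Agent.Results.MP_9afe8f_co.No

open Finset Pool.Agent.H.MP_9afe8f_co

noncomputable def len {n : ℕ} (p : Fin n → ℤ × ℤ) : Sym2 (Fin n) → ℝ :=
  Sym2.lift ⟨fun x y => √((((p x).1 : ℝ) - (p y).1) ^ 2 + (((p x).2 : ℝ) - (p y).2) ^ 2),
    fun x y => congrArg Real.sqrt (by ring)⟩

open Classical in
noncomputable def weight {n : ℕ} (p : Fin n → ℤ × ℤ) (T : SimpleGraph (Fin n)) : ℝ :=
  ∑ f ∈ T.edgeFinset, len p f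

def IsMinDrawing {n : ℕ} (T : SimpleGraph (Fin n)) (W H : ℕ) (p : Fin n → ℤ × ℤ) : Prop :=
  Function.Injective p ∧ (∀ v, 1 ≤ (p v).1 ∧ (p v).1 ≤ W ∧ 1 ≤ (p v).2 ∧ (p v).2 ≤ H) ∧
    ∀ T' : SimpleGraph (Fin n), T'.IsTree → weight p T ≤ weight p T'

theorem main (n : ℕ) (T : SimpleGraph (Fin n)) (hT : T.IsTree)
    (hd : ∀ v, (T.neighborSet v).ncard ≤ 5) :
    ∃ p, IsMinDrawing T (2 ^ (7 * n ^ 2 / 12 + 8 * n + 4)) (2 ^ (7 * n ^ 2 / 12 + 8 * n + 4)) p := by
  classical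
  obtain ⟨R, hch, hsum⟩ := exists_rooted T hT hd
  obtain ⟨pos, h1, h2, h3⟩ := R.geo hch rfl
  rw [Fintype.card_fin] at h2 h3
  generalize 7 * n ^ 2 / 12 + 8 * n = E at *
  set μ : ℝ := (1 / 2) ^ E with hμ
  set S : ℝ := 2 ^ (E + 3) with hS
  have hSμ : S * μ = 8 := by
    rw [hS, hμ, pow_add, one_div, inv_pow]; field_simp; norm_num
  have hS8 : 8 ≤ S := by
    rw [hS, pow_add]
    have : (1 : ℝ) ≤ 2 ^ E := one_le_pow₀ (by norm_num)
    linarith
  let p : Fin n → ℤ × ℤ := fun v =>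
    (round (S * (pos v).re) + 2 ^ (E + 3), round (S * (pos v).im) + 2 ^ (E + 3))
  let q : Fin n → ℂ := fun v => ⟨round (S * (pos v).re), round (S * (pos v).im)⟩
  have hq : ∀ v, ‖q v - (S : ℂ) * pos v‖ ≤ 1 := by
    intro v
    apply norm_le_of_sq
    have a1 := abs_le.mp (abs_sub_round (S * (pos v).re))
    have a2 := abs_le.mp (abs_sub_round (S * (pos v).im))
    simp only [q, Complex.sub_re, Complex.sub_im, Complex.re_ofReal_mul, Complex.im_ofReal_mul]
    nlinarith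
  have hlen : ∀ x y, len p s(x, y) = ‖q x - q y‖ := by
    intro x y
    rw [Complex.norm_eq_sqrt_sq_add_sq]
    simp only [len, Sym2.lift_mk, p, q, Complex.sub_re, Complex.sub_im]
    push_cast
    congr 1; ring
  have hcl : ∀ x y, |len p s(x, y) - S * ‖pos x - pos y‖| ≤ 2 := by
    intro x y
    have a1 : S * ‖pos x - pos y‖ = ‖(S : ℂ) * pos x - S * pos y‖ := by
      rw [← mul_sub, norm_mul, Complex.norm_real, Real.norm_of_nonneg (by linarith)]
    rw [hlen, a1]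
    refine le_trans (abs_norm_sub_norm_le _ _) ?_
    have a2 : q x - q y - ((S : ℂ) * pos x - S * pos y) = (q x - S * pos x) - (q y - S * pos y) := by
      ring
    rw [a2]
    have := norm_sub_le (q x - S * pos x) (q y - S * pos y)
    linarith [hq x, hq y]
  have hsep : ∀ x y, ¬ R.U y x → p x ≠ p y := by
    intro x y hxy hp
    have hx : x ≠ R.r := fun h => hxy (h ▸ R.U_root y)
    have a1 : μ ≤ ‖pos x - pos y‖ := by
      rcases h3 x x y hx Relation.ReflTransGen.refl hxy with h | h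
      · rw [h.2]; exact h2 x hx
      · linarith [norm_nonneg (pos x - pos (R.par x))]
    have a2 : len p s(x, y) = 0 := by simp only [len, Sym2.lift_mk, hp]; simp
    have a3 := abs_le.mp (hcl x y)
    nlinarith
  have hb : ∀ t : ℝ, |t| ≤ 1 / 2 → 1 ≤ round (S * t) + 2 ^ (E + 3) ∧
      round (S * t) + 2 ^ (E + 3) ≤ ((2 ^ (E + 4) : ℕ) : ℤ) := by
    intro t ht
    have a1 := abs_le.mp (abs_sub_round (S * t))
    have a2 := abs_le.mp ht
    have a3 : (2 : ℝ) ^ (E + 4) = 2 * S := by rw [hS]; ring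
    constructor
    · have : (1 : ℝ) ≤ round (S * t) + S := by nlinarith
      rw [hS] at this ⊢; exact_mod_cast this
    · have : (round (S * t) : ℝ) + S ≤ 2 ^ (E + 4) := by rw [a3]; nlinarith
      rw [hS] at this ⊢; exact_mod_cast this
  refine ⟨p, fun x y hxy => ?_, fun v => ?_, fun T' hT' => ?_⟩
  · by_contra hne
    by_cases a1 : R.U y x
    · refine hsep y x (fun a2 => ?_) hxy.symm
      rcases Relation.ReflTransGen.cases_head a2 with h | ⟨z, h4, h5⟩
      · exact hne h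
      · have b1 := R.U_dep a1
        have b2 := R.U_dep h5
        have b3 := R.dep_par x h4.1
        rw [h4.2] at b3; omega
    · exact hsep x y a1 hxy
  · have a1 := hb _ (le_trans (Complex.abs_re_le_norm (pos v)) (h1 v))
    have a2 := hb _ (le_trans (Complex.abs_im_le_norm (pos v)) (h1 v))
    exact ⟨a1.1, a1.2, a2.1, a2.2⟩
  · unfold weight
    have := R.mst T' hT'.connected.preconnected (len p)
      (fun f => by induction f using Sym2.ind with | _ x y => rw [hlen]; exact norm_nonneg _)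
      (fun c x y hc hx hy => by
        rcases h3 c x y hc hx hy with h | h
        · rw [h.1, h.2]
        · have a1 := abs_le.mp (hcl x y)
          have a2 := abs_le.mp (hcl c (R.par c))
          nlinarith)
    rw [← hsum] at this
    convert this

theorem result :
    (∀ (n : ℕ) (T : SimpleGraph (Fin n)), T.IsTree → (∀ v, (T.neighborSet v).ncard ≤ 5) →
      ∃ p, IsMinDrawing T (2 ^ (7 * n ^ 2 / 12 + 8 * n + 4)) (2 ^ (7 * n ^ 2 / 12 + 8 * n + 4)) p) ∧
    ∀ c : ℝ, 0 < c → ∃ N : ℕ, ∀ n ≥ N, ∀ T : SimpleGraph (Fin n), T.IsTree →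
      (∀ v, (T.neighborSet v).ncard ≤ 5) →
      ∃ (W H : ℕ) (p : Fin n → ℤ × ℤ), IsMinDrawing T W H p ∧
        ((W : ℝ) * H < c * 2 ^ (n ^ 2) * 2 ^ (n ^ 2)) := by
  refine ⟨main, fun c hc => ?_⟩
  obtain ⟨k, hk⟩ := exists_pow_lt_of_lt_one hc (show (1 : ℝ) / 2 < 1 by norm_num)
  refine ⟨max k 30, fun n hn T hT hd => ?_⟩
  obtain ⟨p, hp⟩ := main n T hT hd
  refine ⟨_, _, p, hp, ?_⟩
  have h1 : k ≤ n := le_trans (le_max_left _ _) hn
  have h2 : 30 ≤ n := le_trans (le_max_right _ _) hn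
  have h3 : 30 * n ≤ n ^ 2 := by nlinarith
  generalize n ^ 2 = m at *
  have h4 : (7 * m / 12 + 8 * n + 4) + (7 * m / 12 + 8 * n + 4) + k ≤ m + m := by omega
  have h5 : (2 : ℝ) ^ ((7 * m / 12 + 8 * n + 4) + (7 * m / 12 + 8 * n + 4) + k) ≤ 2 ^ (m + m) :=
    pow_le_pow_right₀ (by norm_num) h4
  have h6 : (1 / 2 : ℝ) ^ k * 2 ^ k = 1 := by rw [← mul_pow]; norm_num
  push_cast
  rw [pow_add, pow_add _ (7 * m / 12 + 8 * n + 4), pow_add _ m] at h5
  generalize (2 : ℝ) ^ (7 * m / 12 + 8 * n + 4) = A at *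
  have h7 : (0 : ℝ) < 2 ^ m * 2 ^ m := by positivity
  have h8 : (0 : ℝ) < (1 / 2) ^ k := by positivity
  calc A * A = (1 / 2) ^ k * (A * A * 2 ^ k) := by linear_combination (-(A * A)) * h6
    _ ≤ (1 / 2) ^ k * (2 ^ m * 2 ^ m) := by gcongr
    _ < c * (2 ^ m * 2 ^ m) := by gcongr
    _ = _ := by ring

end Pool.Agent.Results.MP_9afe8f_co.No
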